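import Mathlib

namespace Pool.Agent.Results.MP_eda2d2_co.Cex

open Polynomial

/-- A tuple `t = (a, b, c, d)`. -/
abbrev Tup := ℕ × ℕ × ℕ × ℕ

/-- `M_t = φ_{pqr}^d φ_{pq}^a φ_{pr}^b φ_{qr}^c`. -/
noncomputable def M (p q r : ℕ) (t : Tup) : ℤ[X] :=
  cyclotomic (p * q * r) ℤ ^ t.2.2.2 * cyclotomic (p * q) ℤ ^ t.1 * cyclotomic (p * r) ℤ ^ t.2.1 *
    cyclotomic (q * r) ℤ ^ t.2.2.1

/-- `A_t = x (φ_p φ_q)^2 M_t`. -/
noncomputable def A (p q r : ℕ) (t : Tup) : ℤ[X] :=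
  X * (cyclotomic p ℤ * cyclotomic q ℤ) ^ 2 * M p q r t

/-- `B_t = x φ_r^2 M_t`. -/
noncomputable def B (p q r : ℕ) (t : Tup) : ℤ[X] := X * cyclotomic r ℤ ^ 2 * M p q r t

/-- `t̄ = (2 - a, 2 - b, 2 - c, 2 - d)`. -/
def bar (t : Tup) : Tup := (2 - t.1, 2 - t.2.1, 2 - t.2.2.1, 2 - t.2.2.2)

/-- The ten tuples of `T`. -/
def T : Finset Tup :=
  {(2, 0, 0, 0), (2, 1, 0, 1), (2, 0, 1, 1), (2, 1, 1, 1), (2, 0, 2, 2), (2, 1, 1, 2),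
    (2, 2, 0, 2), (2, 1, 2, 2), (2, 2, 1, 2), (2, 2, 2, 2)}

/-- The set `S` of the problem. -/
def S : Finset Tup :=
  (Finset.range 3 ×ˢ Finset.range 3 ×ˢ Finset.range 3 ×ˢ Finset.range 3).filter fun t =>
    2 + t.2.2.2 ≤ t.1 + t.2.1 + t.2.2.1 ∧ t.1 + t.2.1 + t.2.2.1 ≤ 4 + t.2.2.2 ∧ t ∉ T ∧
      t ≠ (1, 1, 1, 1)

lemma c2 : cyclotomic 2 ℤ = X + 1 := cyclotomic_two ℤ
lemma c3 : cyclotomic 3 ℤ = X ^ 2 + X + 1 := cyclotomic_three ℤ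
lemma c6 : cyclotomic (2 * 3) ℤ = X ^ 2 - X + 1 := cyclotomic_six ℤ

lemma c7 : cyclotomic 7 ℤ = X ^ 6 + X ^ 5 + X ^ 4 + X ^ 3 + X ^ 2 + X + 1 := by
  haveI : Fact (Nat.Prime 7) := ⟨by norm_num⟩
  rw [cyclotomic_prime]
  simp only [Finset.sum_range_succ, Finset.sum_range_zero]
  ring

lemma c14 : cyclotomic (2 * 7) ℤ = X ^ 6 - X ^ 5 + X ^ 4 - X ^ 3 + X ^ 2 - X + 1 := by
  have h := cyclotomic_expand_eq_cyclotomic_mul (p := 2) (n := 7) (by norm_num) (by norm_num) ℤ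
  apply mul_right_cancel₀ (cyclotomic_ne_zero 7 ℤ)
  rw [show 2 * 7 = 7 * 2 by norm_num, ← h, c7]
  simp only [map_add, map_pow, expand_X, map_one]
  ring

lemma c21 : cyclotomic (3 * 7) ℤ =
    X ^ 12 - X ^ 11 + X ^ 9 - X ^ 8 + X ^ 6 - X ^ 4 + X ^ 3 - X + 1 := by
  have h := cyclotomic_expand_eq_cyclotomic_mul (p := 3) (n := 7) (by norm_num) (by norm_num) ℤ
  apply mul_right_cancel₀ (cyclotomic_ne_zero 7 ℤ)
  rw [show 3 * 7 = 7 * 3 by norm_num, ← h, c7]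
  simp only [map_add, map_pow, expand_X, map_one]
  ring

lemma c42 : cyclotomic (2 * 3 * 7) ℤ =
    X ^ 12 + X ^ 11 - X ^ 9 - X ^ 8 + X ^ 6 - X ^ 4 - X ^ 3 + X + 1 := by
  have h := cyclotomic_expand_eq_cyclotomic_mul (p := 2) (n := 3 * 7) (by norm_num)
    (by norm_num) ℤ
  apply mul_right_cancel₀ (cyclotomic_ne_zero (3 * 7) ℤ)
  rw [show 2 * 3 * 7 = 3 * 7 * 2 by norm_num, ← h, c21]
  simp only [map_add, map_sub, map_pow, expand_X, map_one]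
  ring

/-- Generating polynomial of a die with the given list of face labels. -/
noncomputable def die (l : List ℕ) : ℤ[X] := (l.map fun j => (X : ℤ[X]) ^ j).sum

lemma die_nonneg (l : List ℕ) (k : ℕ) : 0 ≤ (die l).coeff k := by
  induction l with
  | nil => simp [die]
  | cons j l ih =>
    simp only [die, List.map_cons, List.sum_cons, coeff_add, coeff_X_pow] at ih ⊢
    split_ifs <;> omega

lemma A_eq : A 2 3 7 (2, 2, 1, 1) = die [1, 3, 5, 8, 8, 10, 10, 12, 12, 15, 15, 17, 17, 19, 19, 22, 22, 24, 24, 26, 26, 29, 29, 31, 31, 33, 33, 36, 36, 38, 38, 40, 40, 43, 45, 47] := by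
  simp only [A, M, c2, c3, c6, c14, c21, c42, die, List.map_cons, List.map_nil, List.sum_cons,
    List.sum_nil]
  ring

lemma B_eq : B 2 3 7 (bar (2, 2, 1, 1)) = die [1, 2, 2, 3, 3, 4, 4, 5, 5, 6, 6, 7, 7, 7, 8, 8, 13, 16, 16, 17, 17, 18, 18, 19, 19, 19, 20, 20, 21, 21, 22, 22, 25, 30, 30, 31, 31, 31, 32, 32, 33, 33, 34, 34, 35, 35, 36, 36, 37] := by
  simp only [B, M, bar, c7, c6, c14, c21, c42, die, List.map_cons, List.map_nil, List.sum_cons,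
    List.sum_nil]
  ring

/-- For `(p, q, r) = (2, 3, 7)` and `t = (2, 2, 1, 1) ∈ S` both members of the pair have only
nonnegative coefficients; so the statement of Q1 fails. -/
theorem result :
    (S.card = 34 ∧ (2, 2, 1, 1) ∈ S ∧ (∀ k, 0 ≤ (A 2 3 7 (2, 2, 1, 1)).coeff k) ∧
      ∀ k, 0 ≤ (B 2 3 7 (bar (2, 2, 1, 1))).coeff k) ∧
    ¬ ∀ p q r : ℕ, p.Prime → q.Prime → r.Prime → p ≠ q → p ≠ r → q ≠ r → ∀ t ∈ S,
      (∃ k, (A p q r t).coeff k < 0) ∨ ∃ k, (B p q r (bar t)).coeff k < 0 := by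
  have hA : ∀ k, 0 ≤ (A 2 3 7 (2, 2, 1, 1)).coeff k := fun k => A_eq ▸ die_nonneg _ k
  have hB : ∀ k, 0 ≤ (B 2 3 7 (bar (2, 2, 1, 1))).coeff k := fun k => B_eq ▸ die_nonneg _ k
  have hS : (2, 2, 1, 1) ∈ S := by decide +kernel
  refine ⟨⟨by decide +kernel, hS, hA, hB⟩, fun h => ?_⟩
  rcases h 2 3 7 (by norm_num) (by norm_num) (by norm_num) (by norm_num) (by norm_num)
    (by norm_num) _ hS with ⟨k, hk⟩ | ⟨k, hk⟩
  · exact absurd (hA k) (not_le.2 hk)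
  · exact absurd (hB k) (not_le.2 hk)

end Pool.Agent.Results.MP_eda2d2_co.Cex
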